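import Pool.Agent.Y262.QE.Stm

/-!
# Project QE: functions on the cylinder
-/

set_option autoImplicit false

open Set Filter Topology MeasureTheory
open scoped Real ContDiff ComplexConjugate

noncomputable section

namespace Pool.Agent.Y480.QE

open Pool.Agent.Y262.QE

section

variable {M : Type}

lemma im_shift (z : ℂ) (k : ℤ) : (z + k * (2 * π * Complex.I)).im = z.im + k * (2 * π) := by
  simp

lemma re_shift (z : ℂ) (k : ℤ) : (z + k * (2 * π * Complex.I)).re = z.re := by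
  simp

lemma per_nat {β : Type*} {g : ℂ → β} (per : ∀ z, g (z + 2 * π * Complex.I) = g z) (k : ℕ)
    (z : ℂ) : g (z + k * (2 * π * Complex.I)) = g z := by
  induction k with
  | zero => simp
  | succ n ih =>
    rw [← ih, ← per (z + n * (2 * π * Complex.I))]
    congr 1
    push_cast
    ring

lemma per_int {β : Type*} {g : ℂ → β} (per : ∀ z, g (z + 2 * π * Complex.I) = g z) (k : ℤ)
    (z : ℂ) : g (z + k * (2 * π * Complex.I)) = g z := by
  rcases Int.eq_nat_or_neg k with ⟨n, rfl | rfl⟩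
  · have := per_nat per n z
    simpa using this
  · have := per_nat per n (z + ((-(n : ℤ) : ℤ) : ℂ) * (2 * π * Complex.I))
    rw [← this]
    congr 1
    push_cast
    ring

lemma shift_Ico (z : ℂ) : ∃ k : ℤ, -π ≤ z.im + k * (2 * π) ∧ z.im + k * (2 * π) < π := by
  obtain ⟨k, hk, -⟩ := existsUnique_add_zsmul_mem_Ico (show (0 : ℝ) < 2 * π by positivity) z.im (-π)
  refine ⟨k, ?_, ?_⟩
  · have := hk.1
    simpa using this
  · have := hk.2
    simp only [zsmul_eq_mul] at this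
    linarith

lemma shift_Rec {L : ℝ} {z : ℂ} (hz : z ∈ Strip L) : ∃ (k : ℤ) (b : ℝ), (b = -π ∨ b = 0) ∧
    z + k * (2 * π * Complex.I) ∈ Rec L b := by
  obtain ⟨k, h1, h2⟩ := shift_Ico z
  rcases h1.lt_or_eq with h | h
  · refine ⟨k, -π, Or.inl rfl, ⟨?_, ?_⟩, ?_, ?_⟩
    · rw [re_shift]; exact hz.1
    · rw [re_shift]; exact hz.2
    · rw [im_shift]; exact h
    · rw [im_shift]; linarith
  · refine ⟨k + 1, 0, Or.inr rfl, ⟨?_, ?_⟩, ?_, ?_⟩
    · rw [re_shift]; exact hz.1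
    · rw [re_shift]; exact hz.2
    · rw [im_shift]; push_cast; linarith [Real.pi_pos]
    · rw [im_shift]; push_cast; linarith [Real.pi_pos]

variable [TopologicalSpace M] [MeasurableSpace M] {μ : Measure M} {D : Data M} {L : ℝ} {Φ : ℂ → M}
  {σ : M → M}

/-- a point of the cylinder lies in one of the two charts of the cylinder -/
lemma cyl_chart (hS : D.IsSurf μ) (hC : D.IsCyl μ L Φ σ) {x : M} (hx : x ∈ Φ '' Strip L) :
    ∃ (i : Fin D.N), x ∈ D.U i ∧ ∀ y ∈ D.U i, D.φ i y ∈ Strip L ∧ Φ (D.φ i y) = y := by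
  obtain ⟨z, hz, rfl⟩ := hx
  obtain ⟨k, b, hb, hr⟩ := shift_Rec hz
  obtain ⟨i, hT, hi⟩ := hC.chart b hb
  refine ⟨i, ?_, ?_⟩
  · have h1 : z + k * (2 * π * Complex.I) ∈ D.T i := by rw [hT]; exact hr
    obtain ⟨y, hy, hyz⟩ := h1
    have h2 : D.ψ i (D.φ i y) = y := hS.left i y hy
    rw [hyz, (hi _ hr).1, per_int hC.per] at h2
    rw [h2]; exact hy
  · intro y hy
    have h1 : D.φ i y ∈ Rec L b := by rw [← hT]; exact ⟨y, hy, rfl⟩
    refine ⟨h1.1, ?_⟩
    rw [← (hi _ h1).1]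
    exact hS.left i y hy

/-- the function on the surface which is given by a function on the strip -/
def ext (L : ℝ) (Φ : ℂ → M) (g : ℂ → ℝ) (x : M) : ℝ :=
  open Classical in if h : ∃ z ∈ Strip L, Φ z = x then g h.choose else 0

lemma ext_mem (hC : D.IsCyl μ L Φ σ) {g : ℂ → ℝ} (hg : ∀ z, g (z + 2 * π * Complex.I) = g z)
    {z : ℂ} (hz : z ∈ Strip L) : ext L Φ g (Φ z) = g z := by
  have h : ∃ w ∈ Strip L, Φ w = Φ z := ⟨z, hz, rfl⟩
  unfold ext
  rw [dif_pos h]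
  obtain ⟨k, hk⟩ := hC.inj z hz h.choose h.choose_spec.1 h.choose_spec.2.symm
  rw [hk, per_int hg]

omit [TopologicalSpace M] [MeasurableSpace M] in
lemma ext_not {g : ℂ → ℝ} {x : M} (hx : x ∉ Φ '' Strip L) : ext L Φ g x = 0 := by
  unfold ext
  rw [dif_neg]
  rintro ⟨z, hz, h⟩
  exact hx ⟨z, hz, h⟩

/-- the support is compact in the cylinder -/
lemma ext_supp [T2Space M] (hC : D.IsCyl μ L Φ σ) (hΦ : ContinuousOn Φ (Strip L))
    {g : ℂ → ℝ} (hg : ∀ z, g (z + 2 * π * Complex.I) = g z) {S : Set ℝ} (hS : IsCompact S)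
    (hSL : S ⊆ Ioo 0 L) (hgS : ∀ z : ℂ, z.re ∉ S → g z = 0) {x : M} (hx : x ∉ Φ '' Strip L) :
    ∀ᶠ y in 𝓝 x, ext L Φ g y = 0 := by
  set C : Set ℂ := S ×ℂ Icc (-π) π with hCdef
  have hCc : IsCompact C := hS.reProdIm isCompact_Icc
  have hCs : C ⊆ Strip L := fun z hz => ⟨(hSL hz.1).1, (hSL hz.1).2⟩
  have hK : IsCompact (Φ '' C) := hCc.image_of_continuousOn (hΦ.mono hCs)
  have hxK : x ∈ (Φ '' C)ᶜ := fun h => hx (image_mono hCs h)
  filter_upwards [hK.isClosed.isOpen_compl.mem_nhds hxK] with y hy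
  by_cases hys : y ∈ Φ '' Strip L
  · obtain ⟨z, hz, rfl⟩ := hys
    rw [ext_mem hC hg hz]
    apply hgS
    intro hzS
    obtain ⟨k, h1, h2⟩ := shift_Ico z
    apply hy
    refine ⟨z + k * (2 * π * Complex.I), ⟨?_, ?_⟩, per_int hC.per k z⟩
    · show (z + k * (2 * π * Complex.I)).re ∈ S
      rw [re_shift]; exact hzS
    · show (z + k * (2 * π * Complex.I)).im ∈ Icc (-π) π
      rw [im_shift]; exact ⟨h1, h2.le⟩
  · exact ext_not hys

lemma ext_cont [T2Space M] (hM : D.IsSurf μ) (hC : D.IsCyl μ L Φ σ)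
    (hΦ : ContinuousOn Φ (Strip L))
    {g : ℂ → ℝ} (hg : ∀ z, g (z + 2 * π * Complex.I) = g z) {S : Set ℝ} (hS : IsCompact S)
    (hSL : S ⊆ Ioo 0 L) (hgS : ∀ z : ℂ, z.re ∉ S → g z = 0) (hgc : Continuous g) :
    Continuous (ext L Φ g) := by
  rw [continuous_iff_continuousAt]
  intro x
  by_cases hx : x ∈ Φ '' Strip L
  · obtain ⟨i, hxi, hi⟩ := cyl_chart hM hC hx
    have h1 : (ext L Φ g) =ᶠ[𝓝 x] fun y => g (D.φ i y) := by
      filter_upwards [(hM.openU i).mem_nhds hxi] with y hy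
      have := ext_mem hC hg (hi y hy).1
      rw [(hi y hy).2] at this
      exact this
    refine ContinuousAt.congr ?_ h1.symm
    exact hgc.continuousAt.comp ((hM.contφ i).continuousAt ((hM.openU i).mem_nhds hxi))
  · have h1 := ext_supp hC hΦ hg hS hSL hgS hx
    exact ContinuousAt.congr continuousAt_const (h1.mono fun y hy => hy.symm)

lemma ext_C1 [T2Space M] (hM : D.IsSurf μ) (hC : D.IsCyl μ L Φ σ)
    (hΦ : ContinuousOn Φ (Strip L))
    {g : ℂ → ℝ} (hg : ∀ z, g (z + 2 * π * Complex.I) = g z) {S : Set ℝ} (hS : IsCompact S)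
    (hSL : S ⊆ Ioo 0 L) (hgS : ∀ z : ℂ, z.re ∉ S → g z = 0) (hgc : ContDiff ℝ 1 g) :
    D.C1 (ext L Φ g) := by
  intro j z hz
  apply ContDiffAt.contDiffWithinAt
  have hzT := hz
  obtain ⟨x, hxj, rfl⟩ := hz
  have hψ : ContinuousAt (D.ψ j) (D.φ j x) := (hM.contψ j).continuousAt ((hM.openT j).mem_nhds hzT)
  have hψx : D.ψ j (D.φ j x) = x := hM.left j x hxj
  have hψt : Tendsto (D.ψ j) (𝓝 (D.φ j x)) (𝓝 x) := by
    have := hψ.tendsto
    rwa [hψx] at this
  by_cases hx : x ∈ Φ '' Strip L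
  · obtain ⟨i, hxi, hi⟩ := cyl_chart hM hC hx
    have h1 : ∀ᶠ y in 𝓝 x, ext L Φ g y = g (D.φ i y) := by
      filter_upwards [(hM.openU i).mem_nhds hxi] with y hy
      have := ext_mem hC hg (hi y hy).1
      rw [(hi y hy).2] at this
      exact this
    have h2 : (fun z => ext L Φ g (D.ψ j z)) =ᶠ[𝓝 (D.φ j x)] fun z => g (D.φ i (D.ψ j z)) :=
      hψt.eventually h1
    refine ContDiffAt.congr_of_eventuallyEq ?_ h2
    exact hgc.contDiffAt.comp (D.φ j x) (hM.tr j i x hxj hxi).1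
  · have h1 := hψt.eventually (ext_supp hC hΦ hg hS hSL hgS hx)
    exact ContDiffAt.congr_of_eventuallyEq (contDiffAt_const (c := (0 : ℝ))) h1

end

lemma conj_strip {L : ℝ} {z : ℂ} (hz : z ∈ Strip L) : conj z ∈ Strip L := by
  simpa [Strip] using hz

lemma Vf_per (η : ℝ → ℝ) (m : ℕ) (z : ℂ) : Vf η m (z + 2 * π * Complex.I) = Vf η m z := by
  have h1 : (z + 2 * π * Complex.I).re = z.re := by simp
  have h2 : (z + 2 * π * Complex.I).im = z.im + 2 * π := by simp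
  have h3 : ((m : ℝ) + 1) * (z.im + 2 * π) = (m + 1) * z.im + ((m + 1 : ℕ) : ℝ) * (2 * π) := by
    push_cast; ring
  unfold Vf
  rw [h1, h2, h3, Real.sin_add_nat_mul_two_pi]

lemma Vf_conj (η : ℝ → ℝ) (m : ℕ) (z : ℂ) : Vf η m (conj z) = - Vf η m z := by
  simp [Vf]

lemma Vf_C1 {η : ℝ → ℝ} (hη : ContDiff ℝ ∞ η) (m : ℕ) : ContDiff ℝ 1 (Vf η m) := by
  have h1 : ContDiff ℝ 1 fun z : ℂ => z.re := Complex.reCLM.contDiff
  have h2 : ContDiff ℝ 1 fun z : ℂ => z.im := Complex.imCLM.contDiff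
  have h3 : ContDiff ℝ 1 η := hη.of_le (by norm_cast)
  exact (h3.comp h1).mul (Real.contDiff_sin.comp (contDiff_const.mul h2))

theorem cyf : StCyi → StCyf := by
  intro hcyi M _ _ _ _ μ D hM L Φ σ hC η hη
  obtain ⟨hΦ, -, -, -⟩ := hcyi M μ D hM L Φ σ hC
  obtain ⟨hη1, hη2, hη3⟩ := hη
  have hS : IsCompact (tsupport η) := hη2
  have hz0 : ∀ x, x ∉ tsupport η → η x = 0 := fun x hx => image_eq_zero_of_notMem_tsupport hx
  refine ⟨⟨ext L Φ fun z => η z.re, ?_, ?_, ?_⟩, fun m => ⟨ext L Φ (Vf η m), ?_, ?_, ?_, ?_⟩⟩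
  · refine ext_cont hM hC hΦ (fun z => ?_) hS hη3 (fun z hz => hz0 _ hz) ?_
    · simp
    · exact hη1.continuous.comp Complex.continuous_re
  · intro z hz
    exact ext_mem hC (g := fun z => η z.re) (fun z => by simp) hz
  · intro x hx
    exact ext_not hx
  · refine ext_C1 hM hC hΦ (fun z => ?_) hS hη3 (fun z hz => ?_) ?_
    · exact Vf_per η m z
    · simp [Vf, hz0 _ hz]
    · exact Vf_C1 hη1 m
  · intro z hz
    exact ext_mem hC (g := Vf η m) (Vf_per η m) hz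
  · intro x hx
    exact ext_not hx
  · intro x
    by_cases hx : x ∈ Φ '' Strip L
    · obtain ⟨z, hz, rfl⟩ := hx
      rw [hC.refl z hz, ext_mem hC (Vf_per η m) hz, ext_mem hC (Vf_per η m) (conj_strip hz),
        Vf_conj]
    · have h1 : σ x ∉ Φ '' Strip L := by
        rintro ⟨z, hz, h⟩
        apply hx
        refine ⟨conj z, conj_strip hz, ?_⟩
        rw [← hC.refl z hz, h, hC.inv]
      rw [ext_not hx, ext_not h1, neg_zero]

end Pool.Agent.Y480.QE
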